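import Pool.Agent.Q146.TrBlow.Avg

open Finset

namespace Q146.TB

variable {W : Type*} [Fintype W] [DecidableEq W]

lemma aes_core (E : W → W → Prop) [DecidableRel E] (hl : ∀ v, ¬ E v v) (q : ℕ)
    (hT : ¬ ∃ f : Fin (q+3) → W, TT E (q+3) f)
    (hdeg : ∀ v, (3*q+2) * Fintype.card W < (3*q+5) * (univ.filter (E v)).card) :
    ∀ (k : ℕ) (Q : Finset W) (xs : List W), xs.length + k = q + 1 → Q.card + xs.length = q + 3 →
      xs.Pairwise E → (∀ a ∈ Q, ∀ x ∈ xs, E a x) →
      (∀ a ∈ Q, ∀ b ∈ Q, a ≠ b → E a b ∨ E b a) → False := by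
  intro k
  induction k with
  | zero =>
    intro Q xs h1 h2 h3 h4 h5
    have hQ : Q.card = 2 := by omega
    obtain ⟨a, b, hab, rfl⟩ := Finset.card_eq_two.1 hQ
    have key : ∀ a b : W, E a b → (∀ x ∈ xs, E a x) → (∀ x ∈ xs, E b x) → False := by
      intro a b hE ha hb
      have hp : (a :: b :: xs).Pairwise E := by
        rw [List.pairwise_cons, List.pairwise_cons]
        refine ⟨?_, hb, h3⟩
        intro x hx
        rcases List.mem_cons.1 hx with rfl | hx
        · exact hE
        · exact ha x hx
      have hlen : (a :: b :: xs).length = q + 3 := by simp; omega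
      apply hT
      refine ⟨fun i => (a :: b :: xs).get (i.cast hlen.symm), ?_⟩
      intro i j hij
      rw [List.pairwise_iff_get] at hp
      exact hp _ _ (by simpa using hij)
    rcases h5 a (by simp) b (by simp) hab with h | h
    · exact key a b h (h4 a (by simp)) (h4 b (by simp))
    · exact key b a h (h4 b (by simp)) (h4 a (by simp))
  | succ k ih =>
    intro Q xs h1 h2 h3 h4 h5
    have hnd : xs.Nodup := by
      apply h3.imp
      intro a b hab h
      subst h
      exact hl _ hab
    have hXc : xs.toFinset.card = xs.length := List.toFinset_card_of_nodup hnd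
    have hQpos : 0 < Q.card := by omega
    obtain ⟨q1, hq1⟩ := Finset.card_pos.1 hQpos
    have hW : 0 < Fintype.card W := Fintype.card_pos_iff.2 ⟨q1⟩
    have hdef : ∀ y, (3*q+5) * (univ.filter (fun x => ¬ E y x)).card ≤ 3 * Fintype.card W := by
      intro y
      have h := hdeg y
      have h' := Finset.card_filter_add_card_filter_not (s := (univ : Finset W)) (E y)
      rw [Finset.card_univ] at h'
      nlinarith
    have hex : ∃ x, 2 * (xs.toFinset.filter (fun y => ¬ E y x)).card +
        (Q.filter (fun y => ¬ E y x)).card ≤ 1 := by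
      by_contra hcon
      push Not at hcon
      have hs1 : ∀ S : Finset W, ∑ x, (S.filter (fun y => ¬ E y x)).card =
          ∑ y ∈ S, (univ.filter (fun x => ¬ E y x)).card := by
        intro S
        simp_rw [Finset.card_filter]
        rw [Finset.sum_comm]
      have hs2 : ∀ S : Finset W, (3*q+5) * ∑ x, (S.filter (fun y => ¬ E y x)).card ≤
          S.card * (3 * Fintype.card W) := by
        intro S
        rw [hs1, Finset.mul_sum]
        refine (Finset.sum_le_sum (fun y _ => hdef y)).trans ?_
        simp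
      have hs3 : ∑ x : W, 2 ≤ ∑ x, (2 * (xs.toFinset.filter (fun y => ¬ E y x)).card +
        (Q.filter (fun y => ¬ E y x)).card) := Finset.sum_le_sum (fun x _ => hcon x)
      rw [Finset.sum_add_distrib, ← Finset.mul_sum] at hs3
      simp only [Finset.sum_const, Finset.card_univ, smul_eq_mul] at hs3
      have hA := hs2 xs.toFinset
      have hB := hs2 Q
      rw [hXc] at hA
      set a := ∑ x, (xs.toFinset.filter (fun y => ¬ E y x)).card
      set b := ∑ x, (Q.filter (fun y => ¬ E y x)).card
      set N := Fintype.card W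
      have h6 : 2 * xs.length + Q.card ≤ 2 * q + 3 := by omega
      have h7 : (3*q+5) * (2 * a + b) ≤ (2 * xs.length + Q.card) * (3 * N) := by nlinarith
      have h8 : (2 * xs.length + Q.card) * (3 * N) ≤ (2*q+3) * (3 * N) :=
        Nat.mul_le_mul_right _ h6
      nlinarith
    obtain ⟨x, hx⟩ := hex
    have hx1 : (xs.toFinset.filter (fun y => ¬ E y x)).card = 0 := by omega
    have hx2 : (Q.filter (fun y => ¬ E y x)).card ≤ 1 := by omega
    have hxs : ∀ y ∈ xs, E y x := by
      intro y hy
      by_contra hc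
      rw [Finset.card_eq_zero, Finset.filter_eq_empty_iff] at hx1
      exact hx1 (List.mem_toFinset.2 hy) hc
    obtain ⟨q0, hq0, hq0'⟩ : ∃ q0 ∈ Q, ∀ a ∈ Q, a ≠ q0 → E a x := by
      rcases (Q.filter (fun y => ¬ E y x)).eq_empty_or_nonempty with h | ⟨q0, h⟩
      · refine ⟨q1, hq1, fun a ha _ => ?_⟩
        by_contra hc
        rw [Finset.filter_eq_empty_iff] at h
        exact h ha hc
      · refine ⟨q0, (Finset.mem_filter.1 h).1, fun a ha hne => ?_⟩
        by_contra hc
        exact hne (Finset.card_le_one.1 hx2 a (Finset.mem_filter.2 ⟨ha, hc⟩) q0 h)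
    apply ih (Q.erase q0) (xs ++ [x])
    · simp; omega
    · rw [Finset.card_erase_of_mem hq0]; simp; omega
    · rw [List.pairwise_append]
      refine ⟨h3, by simp, ?_⟩
      intro a ha b hb
      simp at hb
      subst hb
      exact hxs a ha
    · intro a ha y hy
      rw [Finset.mem_erase] at ha
      rcases List.mem_append.1 hy with hy | hy
      · exact h4 a ha.2 y hy
      · simp at hy
        subst hy
        exact hq0' a ha.2 ha.1
    · intro a ha b hb hab
      exact h5 a (Finset.mem_of_mem_erase ha) b (Finset.mem_of_mem_erase hb) hab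

/-- directed Andrasfai-Erdos-Sos -/
theorem aes (E : W → W → Prop) (hl : ∀ v, ¬ E v v) (q : ℕ)
    (hT : ¬ ∃ f : Fin (q+3) → W, TT E (q+3) f) [DecidableRel E]
    (hdeg : ∀ v, (3*q+2) * Fintype.card W < (3*q+5) * (univ.filter (E v)).card) :
    ∃ χ : W → Fin (q+2), ∀ u v, E u v → χ u ≠ χ v := by
  classical
  rcases isEmpty_or_nonempty W with hW | hW
  · exact ⟨fun w => isEmptyElim w, fun u => isEmptyElim u⟩
  have hcf : (SimpleGraph.fromRel E).CliqueFree (q+2+1) := by
    intro s hs
    rw [SimpleGraph.isNClique_iff] at hs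
    apply aes_core E hl q hT hdeg (q+1) s [] (by simp) (by simp [hs.2]) (by simp) (by simp)
    intro a ha b hb hab
    have := hs.1 ha hb hab
    rw [SimpleGraph.fromRel_adj] at this
    exact this.2
  have hcol : (SimpleGraph.fromRel E).Colorable (q+2) := by
    apply SimpleGraph.colorable_of_cliqueFree_lt_minDegree hcf
    have e1 : 3 * (q+2) - 4 = 3 * q + 2 := by omega
    have e2 : 3 * (q+2) - 1 = 3 * q + 5 := by omega
    rw [e1, e2, Nat.div_lt_iff_lt_mul (by omega)]
    obtain ⟨v, hv⟩ := (SimpleGraph.fromRel E).exists_minimal_degree_vertex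
    rw [hv]
    refine (hdeg v).trans_le ?_
    rw [mul_comm]
    apply Nat.mul_le_mul_right
    rw [← SimpleGraph.card_neighborFinset_eq_degree]
    apply Finset.card_le_card
    intro w hw
    simp only [Finset.mem_filter, Finset.mem_univ, true_and] at hw
    rw [SimpleGraph.mem_neighborFinset, SimpleGraph.fromRel_adj]
    refine ⟨?_, Or.inl hw⟩
    rintro rfl
    exact hl _ hw
  obtain ⟨χ⟩ := hcol
  refine ⟨fun w => χ w, fun u v huv => ?_⟩
  apply χ.valid
  rw [SimpleGraph.fromRel_adj]
  refine ⟨?_, Or.inl huv⟩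
  rintro rfl
  exact hl _ huv

end Q146.TB
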