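import Mathlib

open Finset

namespace Q146.TB

lemma sum_cons {β : Type*} [Fintype β] {r : ℕ} (f : (Fin (r+1) → β) → ℝ) :
    ∑ y : Fin (r+1) → β, f y = ∑ b : β, ∑ y : Fin r → β, f (Fin.cons b y) := by
  rw [← (Fin.consEquiv (fun _ : Fin (r+1) => β)).sum_comp, Fintype.sum_prod_type]
  rfl

lemma prod_cons {β : Type*} [Fintype β] {r : ℕ} (f : (Fin (r+1) → β) → ℝ) :
    ∏ y : Fin (r+1) → β, f y = ∏ b : β, ∏ y : Fin r → β, f (Fin.cons b y) := by
  rw [← (Fin.consEquiv (fun _ : Fin (r+1) => β)).prod_comp, Fintype.prod_prod_type]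
  rfl

lemma pm {ι : Type*} [Fintype ι] [Nonempty ι] (z : ι → ℝ) (hz : ∀ i, 0 ≤ z i) (n : ℕ) :
    ((∑ i, z i) / (Fintype.card ι : ℝ)) ^ n ≤ (∑ i, z i ^ n) / (Fintype.card ι : ℝ) := by
  have hc : (0:ℝ) < Fintype.card ι := by exact_mod_cast Fintype.card_pos
  have := Real.pow_arith_mean_le_arith_mean_pow (Finset.univ : Finset ι)
    (fun _ => 1 / (Fintype.card ι : ℝ)) z (fun _ _ => by positivity)
    (by simp [hc.ne']) (fun i _ => hz i) n
  rw [← Finset.mul_sum, ← Finset.mul_sum] at this
  rw [div_eq_inv_mul, div_eq_inv_mul]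
  simpa using this

theorem blow_ineq {V : Type*} [Fintype V] [Nonempty V] (t : ℕ) (r : ℕ)
    (F : (Fin r → V) → ℝ) (hF : ∀ x, 0 ≤ F x) :
    ((∑ x, F x) / (Fintype.card V : ℝ) ^ r) ^ (t ^ r) ≤
      (∑ y : Fin r → Fin t → V, ∏ a : Fin r → Fin t, F (fun i => y i (a i))) /
        ((Fintype.card V : ℝ) ^ t) ^ r := by
  induction r with
  | zero =>
    simp
    have : (fun i : Fin 0 => (default : Fin 0 → Fin t → V) i (isEmptyElim i)) =
      (default : Fin 0 → V) := Subsingleton.elim _ _
    apply le_of_eq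
    congr 1
    exact Subsingleton.elim _ _
  | succ r ih =>
    have hn : (0:ℝ) < Fintype.card V := by exact_mod_cast Fintype.card_pos
    set n : ℝ := (Fintype.card V : ℝ) with hnd
    -- G
    set G : V → (Fin r → Fin t → V) → ℝ := fun v y => ∏ a : Fin r → Fin t,
      F (Fin.cons v (fun i => y i (a i))) with hG
    have hG0 : ∀ v y, 0 ≤ G v y := fun v y => Finset.prod_nonneg (fun _ _ => hF _)
    have e1 : (∑ y : Fin (r+1) → Fin t → V, ∏ a : Fin (r+1) → Fin t, F (fun i => y i (a i)))
        = ∑ y : Fin r → Fin t → V, (∑ v, G v y) ^ t := by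
      rw [sum_cons, Finset.sum_comm]
      refine Finset.sum_congr rfl (fun y _ => ?_)
      rw [Fintype.sum_pow]
      refine Finset.sum_congr rfl (fun y0 _ => ?_)
      rw [prod_cons]
      refine Finset.prod_congr rfl (fun a0 _ => ?_)
      refine Finset.prod_congr rfl (fun a _ => ?_)
      congr 1
      funext i
      refine Fin.cases ?_ (fun j => ?_) i
      · simp
      · simp
    have hcard : (Fintype.card (Fin r → Fin t → V) : ℝ) = (n ^ t) ^ r := by
      simp [hnd]
    have e2 := pm (fun y : Fin r → Fin t → V => (∑ v, G v y) / n)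
      (fun y => div_nonneg (Finset.sum_nonneg (fun v _ => hG0 v y)) hn.le) t
    rw [hcard] at e2
    have e3 : (∑ y : Fin r → Fin t → V, (∑ v, G v y) / n) / (n ^ t) ^ r
        = (∑ v, (∑ y, G v y) / (n ^ t) ^ r) / n := by
      rw [← Finset.sum_div, ← Finset.sum_div, Finset.sum_comm]
      rw [div_div, div_div, mul_comm]
    have e4 : ∀ v, ((∑ x : Fin r → V, F (Fin.cons v x)) / n ^ r) ^ (t ^ r) ≤
        (∑ y, G v y) / (n ^ t) ^ r := fun v => ih (fun x => F (Fin.cons v x)) (fun x => hF _)
    have e5 : ((∑ x, F x) / n ^ (r+1)) ^ (t ^ r) ≤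
        (∑ v, (∑ y, G v y) / (n ^ t) ^ r) / n := by
      have := pm (fun v => (∑ x : Fin r → V, F (Fin.cons v x)) / n ^ r)
        (fun v => div_nonneg (Finset.sum_nonneg (fun x _ => hF _)) (by positivity)) (t ^ r)
      have h6 : (∑ x, F x) / n ^ (r+1) =
          (∑ v, (∑ x : Fin r → V, F (Fin.cons v x)) / n ^ r) / n := by
        rw [sum_cons, ← Finset.sum_div, div_div, pow_succ]
      rw [h6]
      refine this.trans ?_
      apply div_le_div_of_nonneg_right _ hn.le
      exact Finset.sum_le_sum (fun v _ => e4 v)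
    rw [e1]
    calc ((∑ x, F x) / n ^ (r+1)) ^ (t ^ (r+1))
        = (((∑ x, F x) / n ^ (r+1)) ^ (t ^ r)) ^ t := by rw [← pow_mul, ← pow_succ]
      _ ≤ ((∑ v, (∑ y, G v y) / (n ^ t) ^ r) / n) ^ t := by
          apply pow_le_pow_left₀ _ e5
          apply pow_nonneg
          exact div_nonneg (Finset.sum_nonneg (fun x _ => hF _)) (by positivity)
      _ ≤ (∑ y : Fin r → Fin t → V, ((∑ v, G v y) / n) ^ t) / (n ^ t) ^ r := by
          rw [← e3]; exact e2
      _ = (∑ y : Fin r → Fin t → V, (∑ v, G v y) ^ t) / (n ^ t) ^ (r+1) := by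
          simp_rw [div_pow]
          rw [← Finset.sum_div, div_div, pow_succ (n ^ t) r, mul_comm (n ^ t)]


/-- number of functions which agree at two given places -/
lemma card_agree {P V : Type*} [Fintype P] [DecidableEq P] [Fintype V] [DecidableEq V]
    (p q : P) (hpq : p ≠ q) :
    ((Finset.univ.filter (fun y : P → V => y p = y q)).card : ℝ) ≤
      (Fintype.card V : ℝ) ^ (Fintype.card P - 1) := by
  have h1 : (Finset.univ.filter (fun y : P → V => y p = y q)).card ≤
      Fintype.card ({x : P // x ≠ q} → V) := by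
    rw [← Finset.card_univ]
    apply Finset.card_le_card_of_injOn (fun y x => y x.1) (fun _ _ => by simp)
    intro y hy z hz h
    simp only [Finset.coe_filter, Finset.mem_univ, true_and, Set.mem_ofPred_eq] at hy hz
    funext x
    by_cases hx : x = q
    · rw [hx, ← hy, ← hz]
      exact congrFun h ⟨p, hpq⟩
    · exact congrFun h ⟨x, hx⟩
  have h2 : Fintype.card ({x : P // x ≠ q} → V) = Fintype.card V ^ (Fintype.card P - 1) := by
    rw [Fintype.card_fun]
    congr 1
    rw [Fintype.card_subtype_compl]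
    simp
  rw [h2] at h1
  exact_mod_cast h1

lemma card_noninj {P V : Type*} [Fintype P] [DecidableEq P] [Fintype V] [DecidableEq V] :
    ((Finset.univ.filter (fun y : P → V => ¬ Function.Injective y)).card : ℝ) ≤
      (Fintype.card P : ℝ) ^ 2 * (Fintype.card V : ℝ) ^ (Fintype.card P - 1) := by
  classical
  have hsub : (Finset.univ.filter (fun y : P → V => ¬ Function.Injective y)) ⊆
      (Finset.univ.filter (fun pq : P × P => pq.1 ≠ pq.2)).biUnion
        (fun pq => Finset.univ.filter (fun y : P → V => y pq.1 = y pq.2)) := by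
    intro y hy
    simp only [Finset.mem_filter, Finset.mem_univ, true_and, Function.Injective] at hy
    push Not at hy
    obtain ⟨a, b, hab, hne⟩ := hy
    simp only [Finset.mem_biUnion, Finset.mem_filter, Finset.mem_univ, true_and]
    exact ⟨(a, b), hne, hab⟩
  have h1 := (Finset.card_le_card hsub).trans Finset.card_biUnion_le
  have h2 : ((∑ pq ∈ Finset.univ.filter (fun pq : P × P => pq.1 ≠ pq.2),
      (Finset.univ.filter (fun y : P → V => y pq.1 = y pq.2)).card : ℕ) : ℝ) ≤
      ∑ pq ∈ Finset.univ.filter (fun pq : P × P => pq.1 ≠ pq.2),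
        (Fintype.card V : ℝ) ^ (Fintype.card P - 1) := by
    push_cast
    apply Finset.sum_le_sum
    intro pq hpq
    exact card_agree _ _ (by simpa using hpq)
  have h3 : (∑ pq ∈ Finset.univ.filter (fun pq : P × P => pq.1 ≠ pq.2),
        (Fintype.card V : ℝ) ^ (Fintype.card P - 1)) ≤
      (Fintype.card P : ℝ) ^ 2 * (Fintype.card V : ℝ) ^ (Fintype.card P - 1) := by
    rw [Finset.sum_const, nsmul_eq_mul]
    apply mul_le_mul_of_nonneg_right _ (by positivity)
    have : (Finset.univ.filter (fun pq : P × P => pq.1 ≠ pq.2)).card ≤ Fintype.card (P × P) :=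
      Finset.card_le_univ _
    rw [Fintype.card_prod] at this
    rw [sq]
    exact_mod_cast this
  exact ((by exact_mod_cast h1 : _ ≤ _).trans h2).trans h3

/-- transitive tournament homomorphisms -/
def TT {V : Type*} (A : V → V → Prop) (r : ℕ) (x : Fin r → V) : Prop :=
  ∀ i j, i < j → A (x i) (x j)

/-- density of transitive tournaments in a `T_r[t]`-free digraph -/
theorem density {V : Type*} [Fintype V] [DecidableEq V] [Nonempty V] (A : V → V → Prop)
    (r t : ℕ) (hr : 1 ≤ r) (ht : 1 ≤ t)
    (hfree : ¬ ∃ f : Fin r × Fin t → V, Function.Injective f ∧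
      ∀ p q, p.1 < q.1 → A (f p) (f q)) [DecidablePred (TT A r)] :
    (((Finset.univ.filter (TT A r)).card : ℝ) / (Fintype.card V : ℝ) ^ r) ^ (t ^ r) ≤
      ((r * t : ℕ) : ℝ) ^ 2 / (Fintype.card V : ℝ) := by
  classical
  have hn : (0:ℝ) < Fintype.card V := by exact_mod_cast Fintype.card_pos
  have h1 := blow_ineq t r (fun x => if TT A r x then (1:ℝ) else 0)
    (fun x => by split_ifs <;> norm_num)
  have h2 : (∑ x : Fin r → V, if TT A r x then (1:ℝ) else 0) =
      (Finset.univ.filter (TT A r)).card := by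
    rw [Finset.sum_boole]
  rw [h2] at h1
  refine h1.trans ?_
  have h3 : (∑ y : Fin r → Fin t → V, ∏ a : Fin r → Fin t,
      if TT A r (fun i => y i (a i)) then (1:ℝ) else 0) ≤
      (Fintype.card (Fin r × Fin t) : ℝ) ^ 2 *
        (Fintype.card V : ℝ) ^ (Fintype.card (Fin r × Fin t) - 1) := by
    refine le_trans ?_ (card_noninj (P := Fin r × Fin t) (V := V))
    have h4 : ∀ y : Fin r → Fin t → V, (∏ a : Fin r → Fin t,
        if TT A r (fun i => y i (a i)) then (1:ℝ) else 0) ≤
        if ¬ Function.Injective (fun p : Fin r × Fin t => y p.1 p.2) then 1 else 0 := by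
      intro y
      by_cases h : ∀ a : Fin r → Fin t, TT A r (fun i => y i (a i))
      · have hni : ¬ Function.Injective (fun p : Fin r × Fin t => y p.1 p.2) := by
          intro hinj
          apply hfree
          refine ⟨fun p => y p.1 p.2, hinj, ?_⟩
          intro p q hpq
          have := h (fun i => if i = p.1 then p.2 else q.2) p.1 q.1 hpq
          simpa [hpq.ne, hpq.ne'] using this
        rw [if_pos hni]
        apply Finset.prod_le_one
        · intro a _; split_ifs <;> norm_num
        · intro a _; split_ifs <;> norm_num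
      · push Not at h
        obtain ⟨a, ha⟩ := h
        rw [Finset.prod_eq_zero (Finset.mem_univ a) (by rw [if_neg ha])]
        split_ifs <;> norm_num
    refine (Finset.sum_le_sum (fun y _ => h4 y)).trans ?_
    rw [Finset.sum_boole]
    have h5 : (Finset.univ.filter (fun y : Fin r → Fin t → V =>
        ¬ Function.Injective (fun p : Fin r × Fin t => y p.1 p.2))).card ≤
        (Finset.univ.filter (fun y : Fin r × Fin t → V => ¬ Function.Injective y)).card := by
      apply Finset.card_le_card_of_injOn (fun y p => y p.1 p.2)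
      · intro y hy
        simpa using hy
      · intro y _ z _ h
        funext i j
        exact congrFun h (i, j)
    exact_mod_cast h5
  have hcard : Fintype.card (Fin r × Fin t) = r * t := by simp
  rw [hcard] at h3
  have hrt : 1 ≤ r * t := Nat.mul_pos hr ht
  calc (∑ y : Fin r → Fin t → V, ∏ a : Fin r → Fin t,
      if TT A r (fun i => y i (a i)) then (1:ℝ) else 0) / ((Fintype.card V : ℝ) ^ t) ^ r
      ≤ (((r * t : ℕ) : ℝ) ^ 2 * (Fintype.card V : ℝ) ^ (r * t - 1)) /
          ((Fintype.card V : ℝ) ^ t) ^ r :=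
        div_le_div_of_nonneg_right h3 (by positivity)
    _ = ((r * t : ℕ) : ℝ) ^ 2 / (Fintype.card V : ℝ) := by
        rw [← pow_mul, mul_comm t r]
        have : (Fintype.card V : ℝ) ^ (r * t) =
            (Fintype.card V : ℝ) ^ (r * t - 1) * (Fintype.card V : ℝ) := by
          rw [← pow_succ]; congr 1; omega
        rw [this]
        field_simp

end Q146.TB
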