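import Pool.Agent.Q146.TrBlow.AES

open Finset

namespace Q146.TB

section
variable {I J : Type*} [Fintype J] [DecidableEq J]

open Classical in
theorem clique_ext_aux (q : ℕ) (e : J → I) (Adj : I → I → Prop) (hsymm : ∀ u v, Adj u v → Adj v u)
    (χ : I → Fin (q+2)) (hχ : ∀ u v, Adj u v → χ u ≠ χ v)
    (hdeg : ∀ i, (3*q+2) * Fintype.card J < (3*q+5) * (univ.filter (fun j => Adj i (e j))).card)
    (i j : I) (hij : χ i = χ j) (P : Finset (Fin (q+2))) :
    χ i ∉ P → ∃ w : Fin (q+2) → J, ∀ k ∈ P, χ (e (w k)) = k ∧ Adj i (e (w k)) ∧ Adj j (e (w k)) ∧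
      ∀ k' ∈ P, k ≠ k' → Adj (e (w k)) (e (w k')) := by
  have hJ : 0 < Fintype.card J := by
    rcases Nat.eq_zero_or_pos (Fintype.card J) with h | h
    · have h1 := hdeg i
      have h2 : (univ.filter (fun j => Adj i (e j))).card ≤ Fintype.card J := Finset.card_le_univ _
      rw [h] at h1 h2
      have : (univ.filter (fun j => Adj i (e j))).card = 0 := by omega
      rw [this] at h1
      simp at h1
    · exact h
  obtain ⟨j0⟩ : Nonempty J := Fintype.card_pos_iff.1 hJ
  -- nonneighbours
  have hnn : ∀ x, (3*q+5) * (univ.filter (fun j => ¬ Adj x (e j))).card < 3 * Fintype.card J := by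
    intro x
    have h := hdeg x
    have h' := Finset.card_filter_add_card_filter_not (s := (univ : Finset J)) (fun j => Adj x (e j))
    rw [Finset.card_univ] at h'
    nlinarith
  set a : Fin (q+2) → ℕ := fun c => (univ.filter (fun j => χ (e j) = c)).card with ha
  have hle : ∀ x k, χ x ≠ k →
      (univ.filter (fun j => χ (e j) = k ∧ ¬ Adj x (e j))).card + a (χ x) ≤
        (univ.filter (fun j => ¬ Adj x (e j))).card := by
    intro x k hk
    rw [ha]
    simp only
    rw [← Finset.card_union_of_disjoint]
    · apply Finset.card_le_card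
      intro j hj
      simp only [Finset.mem_union, Finset.mem_filter, Finset.mem_univ, true_and] at hj ⊢
      rcases hj with hj | hj
      · exact hj.2
      · intro h
        exact hχ _ _ h hj.symm
    · rw [Finset.disjoint_left]
      intro j hj hj'
      simp only [Finset.mem_filter, Finset.mem_univ, true_and] at hj hj'
      exact hk (hj'.symm.trans hj.1)
  have hac : ∀ c, (3*q+5) * a c ≤ 3 * Fintype.card J := by
    intro c
    rcases (univ.filter (fun j => χ (e j) = c)).eq_empty_or_nonempty with h | ⟨j1, h⟩
    · rw [ha]; simp only; rw [h]; simp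
    · have h1 : a c ≤ (univ.filter (fun j => ¬ Adj (e j1) (e j))).card := by
        rw [ha]
        apply Finset.card_le_card
        intro j hj
        simp only [Finset.mem_filter, Finset.mem_univ, true_and] at hj h ⊢
        intro hc
        exact hχ _ _ hc (h.trans hj.symm)
      have h2 := hnn (e j1)
      nlinarith
  have hsum : ∑ c, a c = Fintype.card J := by
    rw [← Finset.card_univ, Finset.card_eq_sum_card_fiberwise (f := fun j => χ (e j))
      (t := (univ : Finset (Fin (q+2)))) (fun _ _ => by simp)]
  set N := Fintype.card J with hN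
  have hak0 : ∀ c, 2 * N ≤ (3*q+5) * a c := by
    intro c
    have h1 : a c + ∑ d ∈ univ.erase c, a d = N := by
      rw [← hsum, Finset.add_sum_erase _ _ (Finset.mem_univ c)]
    have h2 : (3*q+5) * ∑ d ∈ univ.erase c, a d ≤ (q+1) * (3 * N) := by
      rw [Finset.mul_sum]
      refine (Finset.sum_le_sum (fun d _ => hac d)).trans ?_
      rw [Finset.sum_const, Finset.card_erase_of_mem (Finset.mem_univ c)]
      simp
    nlinarith
  induction P using Finset.induction_on with
  | empty => intro _; exact ⟨fun _ => j0, by simp⟩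
  | insert k P hkP ih =>
    intro hi
    rw [Finset.mem_insert, not_or] at hi
    obtain ⟨w, hw⟩ := ih hi.2
    -- counting
    have hO : a (χ i) + (a k + (∑ p ∈ P, a p + ∑ c ∈ univ \ (insert (χ i) (insert k P)), a c)) = N := by
      rw [← hsum, ← Finset.sum_sdiff (Finset.subset_univ (insert (χ i) (insert k P)))]
      rw [Finset.sum_insert (by simp [hi.1, hi.2]), Finset.sum_insert hkP]
      ring
    set O := ∑ c ∈ univ \ (insert (χ i) (insert k P)), a c
    have hPc : (univ \ (insert (χ i) (insert k P))).card + (P.card + 2) = q + 2 := by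
      have h1 := Finset.card_sdiff_add_card_eq_card (Finset.subset_univ (insert (χ i) (insert k P)))
      rw [Finset.card_insert_of_notMem (by simp [hi.1, hi.2]), Finset.card_insert_of_notMem hkP] at h1
      simp at h1
      omega
    have hO2 : (3*q+5) * O ≤ (univ \ (insert (χ i) (insert k P))).card * (3 * N) := by
      rw [Finset.mul_sum]
      refine (Finset.sum_le_sum (fun d _ => hac d)).trans ?_
      rw [Finset.sum_const]
      simp
    have hbad : (univ.filter (fun y => χ (e y) = k ∧ ¬ (Adj i (e y) ∧ Adj j (e y) ∧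
        ∀ p ∈ P, Adj (e (w p)) (e y)))).card < a k := by
      have hsub : (univ.filter (fun y => χ (e y) = k ∧ ¬ (Adj i (e y) ∧ Adj j (e y) ∧
        ∀ p ∈ P, Adj (e (w p)) (e y)))) ⊆
          ((univ.filter (fun y => χ (e y) = k ∧ ¬ Adj i (e y))) ∪
          (univ.filter (fun y => χ (e y) = k ∧ ¬ Adj j (e y)))) ∪
          P.biUnion (fun p => univ.filter (fun y => χ (e y) = k ∧ ¬ Adj (e (w p)) (e y))) := by
        intro y hy
        simp only [Finset.mem_filter, Finset.mem_univ, true_and] at hy
        simp only [Finset.mem_union, Finset.mem_biUnion, Finset.mem_filter, Finset.mem_univ, true_and]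
        by_cases h1 : Adj i (e y)
        · by_cases h2 : Adj j (e y)
          · right
            have : ∃ p ∈ P, ¬ Adj (e (w p)) (e y) := by
              by_contra hc
              push Not at hc
              exact hy.2 ⟨h1, h2, hc⟩
            obtain ⟨p, hp, hp'⟩ := this
            exact ⟨p, hp, hy.1, hp'⟩
          · left; right; exact ⟨hy.1, h2⟩
        · left; left; exact ⟨hy.1, h1⟩
      have hc1 := (Finset.card_le_card hsub).trans (Finset.card_union_le _ _)
      have hc2 := Finset.card_union_le (univ.filter (fun y => χ (e y) = k ∧ ¬ Adj i (e y)))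
        (univ.filter (fun y => χ (e y) = k ∧ ¬ Adj j (e y)))
      have hc3 : (P.biUnion (fun p => univ.filter (fun y => χ (e y) = k ∧ ¬ Adj (e (w p)) (e y)))).card ≤
          ∑ p ∈ P, (univ.filter (fun y => χ (e y) = k ∧ ¬ Adj (e (w p)) (e y))).card :=
        Finset.card_biUnion_le
      have hi1 := hle i k (by simpa using hi.1)
      have hj1 := hle j k (by rw [← hij]; simpa using hi.1)
      have hp1 : ∑ p ∈ P, (univ.filter (fun y => χ (e y) = k ∧ ¬ Adj (e (w p)) (e y))).card +
          ∑ p ∈ P, a p ≤ ∑ p ∈ P, (univ.filter (fun y => ¬ Adj (e (w p)) (e y))).card := by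
        rw [← Finset.sum_add_distrib]
        apply Finset.sum_le_sum
        intro p hp
        have h1 := hle (e (w p)) k (by rw [(hw p hp).1]; rintro rfl; exact hkP hp)
        rwa [(hw p hp).1] at h1
      have hp2 : (3*q+5) * ∑ p ∈ P, (univ.filter (fun y => ¬ Adj (e (w p)) (e y))).card ≤
          P.card * (3 * N) := by
        rw [Finset.mul_sum]
        refine (Finset.sum_le_sum (fun p _ => (hnn (e (w p))).le)).trans ?_
        rw [Finset.sum_const]; simp
      have hni := hnn i
      have hnj := hnn j
      rw [← hij] at hj1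
      have hk0 := hak0 (χ i)
      generalize (univ.filter (fun y => χ (e y) = k ∧ ¬ (Adj i (e y) ∧ Adj j (e y) ∧
        ∀ p ∈ P, Adj (e (w p)) (e y)))).card = B at *
      generalize ((univ.filter (fun y => χ (e y) = k ∧ ¬ Adj i (e y))) ∪
          (univ.filter (fun y => χ (e y) = k ∧ ¬ Adj j (e y)))).card = B1 at *
      generalize (P.biUnion (fun p => univ.filter (fun y => χ (e y) = k ∧ ¬ Adj (e (w p)) (e y)))).card = B2 at *
      generalize (univ.filter (fun y => χ (e y) = k ∧ ¬ Adj i (e y))).card = ni at *
      generalize (univ.filter (fun y => χ (e y) = k ∧ ¬ Adj j (e y))).card = nj at *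
      generalize ∑ p ∈ P, (univ.filter (fun y => χ (e y) = k ∧ ¬ Adj (e (w p)) (e y))).card = np at *
      generalize (univ.filter (fun y => ¬ Adj i (e y))).card = mi at *
      generalize (univ.filter (fun y => ¬ Adj j (e y))).card = mj at *
      generalize ∑ p ∈ P, (univ.filter (fun y => ¬ Adj (e (w p)) (e y))).card = mp at *
      generalize ∑ p ∈ P, a p = sp at *
      generalize (univ \ (insert (χ i) (insert k P))).card = oc at *
      generalize a (χ i) = a0 at *
      generalize a k = ak at *
      have hoc : oc + P.card = q := by omega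
      have hB : B + 2 * a0 + sp ≤ mi + mj + mp := by omega
      have hX : (3*q+5) * (mi + mj + mp) < (P.card + 2) * (3 * N) := by nlinarith
      have hY : (7 + 3 * P.card) * N ≤ (3*q+5) * (ak + 2 * a0 + sp) := by
        have : (3*q+5) * (ak + 2 * a0 + sp) + (3*q+5) * O = (3*q+5) * N + (3*q+5) * a0 := by
          rw [← hO]; ring
        have h9 : oc * (3 * N) + P.card * (3 * N) = q * (3 * N) := by rw [← add_mul, hoc]
        nlinarith
      have hZ : (3*q+5) * (B + 2 * a0 + sp) < (3*q+5) * (ak + 2 * a0 + sp) := by nlinarith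
      have := Nat.lt_of_mul_lt_mul_left hZ
      omega
    have hex : ∃ y, χ (e y) = k ∧ Adj i (e y) ∧ Adj j (e y) ∧ ∀ p ∈ P, Adj (e (w p)) (e y) := by
      by_contra hcon
      push Not at hcon
      apply hbad.not_ge
      rw [ha]
      apply Finset.card_le_card
      intro y hy
      simp only [Finset.mem_filter, Finset.mem_univ, true_and] at hy ⊢
      refine ⟨hy, fun h => ?_⟩
      obtain ⟨p, hp, hp'⟩ := hcon y hy h.1 h.2.1
      exact hp' (h.2.2 p hp)
    obtain ⟨y, hy1, hy2, hy3, hy4⟩ := hex
    refine ⟨fun c => if c = k then y else w c, ?_⟩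
    intro c hc
    rw [Finset.mem_insert] at hc
    by_cases hck : c = k
    · subst hck
      simp only [if_true]
      refine ⟨hy1, hy2, hy3, fun k' hk' hne => ?_⟩
      rw [Finset.mem_insert] at hk'
      have hk'' : k' ∈ P := by
        rcases hk' with h | h
        · exact absurd h.symm hne
        · exact h
      rw [if_neg (Ne.symm hne)]
      exact hsymm _ _ (hy4 k' hk'')
    · have hcP : c ∈ P := by
        rcases hc with h | h
        · exact absurd h hck
        · exact h
      simp only [if_neg hck]
      obtain ⟨h1, h2, h3, h4⟩ := hw c hcP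
      refine ⟨h1, h2, h3, fun k' hk' hne => ?_⟩
      rw [Finset.mem_insert] at hk'
      by_cases hkk : k' = k
      · rw [if_pos hkk]
        exact hy4 c hcP
      · rw [if_neg hkk]
        rcases hk' with h | h
        · exact absurd h hkk
        · exact h4 k' h hne

/-- two vertices are linked by a clique -/
def Lnk (q : ℕ) (e : J → I) (Adj : I → I → Prop) (i j : I) : Prop :=
  ∃ g : Fin (q+1) → J, (∀ a, Adj i (e (g a)) ∧ Adj j (e (g a))) ∧
    ∀ a b, a ≠ b → Adj (e (g a)) (e (g b))

open Classical in
theorem lnk_of_color (q : ℕ) (e : J → I) (Adj : I → I → Prop) (hsymm : ∀ u v, Adj u v → Adj v u)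
    (χ : I → Fin (q+2)) (hχ : ∀ u v, Adj u v → χ u ≠ χ v)
    (hdeg : ∀ i, (3*q+2) * Fintype.card J < (3*q+5) * (univ.filter (fun j => Adj i (e j))).card)
    (i j : I) (hij : χ i = χ j) : Lnk q e Adj i j := by
  obtain ⟨w, hw⟩ := clique_ext_aux q e Adj hsymm χ hχ hdeg i j hij (univ.erase (χ i)) (by simp)
  refine ⟨fun a => w ((χ i).succAbove a), ?_, ?_⟩
  · intro a
    have := hw ((χ i).succAbove a) (by simp)
    exact ⟨this.2.1, this.2.2.1⟩
  · intro a b hab
    have := hw ((χ i).succAbove a) (by simp)
    exact this.2.2.2 _ (by simp) (fun h => hab (Fin.succAbove_right_injective h))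

omit [Fintype J] [DecidableEq J] in
theorem color_of_lnk (q : ℕ) (e : J → I) (Adj : I → I → Prop)
    (χ : I → Fin (q+2)) (hχ : ∀ u v, Adj u v → χ u ≠ χ v)
    (i j : I) (h : Lnk q e Adj i j) : χ i = χ j := by
  classical
  by_contra hne
  obtain ⟨g, h1, h2⟩ := h
  have hinj : Function.Injective (fun a => χ (e (g a))) := by
    intro a b hab
    by_contra hc
    exact hχ _ _ (h2 a b hc) hab
  have hc : (insert (χ i) (insert (χ j) (univ.image (fun a => χ (e (g a)))))).card = q + 3 := by
    rw [Finset.card_insert_of_notMem, Finset.card_insert_of_notMem,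
      Finset.card_image_of_injective _ hinj]
    · simp
    · simp only [Finset.mem_image, Finset.mem_univ, true_and, not_exists]
      intro a ha
      exact hχ _ _ (h1 a).2 ha.symm
    · simp only [Finset.mem_insert, Finset.mem_image, Finset.mem_univ, true_and, not_or, not_exists]
      refine ⟨hne, fun a ha => ?_⟩
      exact hχ _ _ (h1 a).1 ha.symm
  have := Finset.card_le_univ (insert (χ i) (insert (χ j) (univ.image (fun a => χ (e (g a))))))
  rw [hc] at this
  simp at this

end

end Q146.TB
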