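import Pool.Agent.Q146.TrBlow.Part

open Finset Filter Topology

namespace Q146.TB

lemma asym (r : ℕ) (hr : 1 ≤ r) (P β α δ K : ℝ) (hα : 0 < α) (hαβ : α < β) (hδ : 0 < δ)
    (hK : 0 ≤ K) (hP : 0 ≤ P) :
    ∃ (C : ℝ) (n1 : ℕ), 0 ≤ C ∧ ∀ n : ℕ, n1 ≤ n → ∃ m : ℕ,
      ((m+2:ℕ):ℝ)^r * (P/n)^β + ((m+2:ℕ):ℝ) * (K * Real.exp (-δ*m)) ≤ C * (n:ℝ)^(-α) := by
  set g : ℝ := (β - α) / (2 * r) with hg
  have hr0 : (0:ℝ) < r := by exact_mod_cast hr
  have hg0 : 0 < g := by rw [hg]; apply div_pos (by linarith) (by positivity)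
  have hgr : g * r = (β - α) / 2 := by rw [hg]; field_simp
  have h1 : Tendsto (fun n : ℕ => (n:ℝ)^g) atTop atTop :=
    (tendsto_rpow_atTop hg0).comp tendsto_natCast_atTop_atTop
  have h2 := (tendsto_rpow_mul_exp_neg_mul_atTop_nhds_zero (1 + α/g) δ hδ).comp h1
  have h3 : ∀ᶠ n : ℕ in atTop, ((n:ℝ)^g)^(1+α/g) * Real.exp (-δ * (n:ℝ)^g) ≤ 1 := by
    have := h2.eventually (Iic_mem_nhds (show (0:ℝ) < 1 by norm_num))
    filter_upwards [this] with n hn
    exact hn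
  obtain ⟨n1, hn1⟩ := eventually_atTop.1 h3
  refine ⟨3^r * P^β + 3 * K * Real.exp δ, max n1 1, by positivity, ?_⟩
  intro n hn
  have hn1' : n1 ≤ n := le_trans (le_max_left _ _) hn
  have hn0 : 1 ≤ n := le_trans (le_max_right _ _) hn
  have hnR : (1:ℝ) ≤ n := by exact_mod_cast hn0
  have hnpos : (0:ℝ) < n := by linarith
  have hx1 : 1 ≤ (n:ℝ)^g := Real.one_le_rpow hnR hg0.le
  refine ⟨⌊(n:ℝ)^g⌋₊, ?_⟩
  set m := ⌊(n:ℝ)^g⌋₊ with hm
  have hm1 : (m:ℝ) ≤ (n:ℝ)^g := Nat.floor_le (by linarith)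
  have hm2 : (n:ℝ)^g - 1 ≤ m := by
    have := Nat.lt_floor_add_one ((n:ℝ)^g)
    rw [← hm] at this
    linarith
  have hm3 : ((m+2:ℕ):ℝ) ≤ 3 * (n:ℝ)^g := by push_cast; linarith
  have hT1 : ((m+2:ℕ):ℝ)^r * (P/n)^β ≤ 3^r * P^β * (n:ℝ)^(-α) := by
    calc ((m+2:ℕ):ℝ)^r * (P/n)^β ≤ (3 * (n:ℝ)^g)^r * (P/n)^β := by
          apply mul_le_mul_of_nonneg_right _ (by positivity)
          exact pow_le_pow_left₀ (by positivity) hm3 r
      _ = 3^r * P^β * (n:ℝ)^(g * r - β) := by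
          rw [mul_pow, Real.div_rpow hP hnpos.le, ← Real.rpow_natCast ((n:ℝ)^g) r,
            ← Real.rpow_mul hnpos.le, Real.rpow_sub hnpos]
          ring
      _ ≤ 3^r * P^β * (n:ℝ)^(-α) := by
          apply mul_le_mul_of_nonneg_left _ (by positivity)
          apply Real.rpow_le_rpow_of_exponent_le hnR
          rw [hgr]; linarith
  have hT2 : ((m+2:ℕ):ℝ) * (K * Real.exp (-δ*m)) ≤ 3 * K * Real.exp δ * (n:ℝ)^(-α) := by
    have e1 : Real.exp (-δ*m) ≤ Real.exp δ * Real.exp (-δ * (n:ℝ)^g) := by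
      rw [← Real.exp_add]
      apply Real.exp_le_exp.2
      nlinarith
    have e2 : (n:ℝ)^g * Real.exp (-δ * (n:ℝ)^g) ≤ (n:ℝ)^(-α) := by
      have := hn1 n hn1'
      rw [← Real.rpow_mul hnpos.le] at this
      have e3 : g * (1 + α/g) = g + α := by field_simp
      rw [e3, Real.rpow_add hnpos] at this
      rw [Real.rpow_neg hnpos.le, ← one_div, le_div_iff₀ (Real.rpow_pos_of_pos hnpos _)]
      linarith
    calc ((m+2:ℕ):ℝ) * (K * Real.exp (-δ*m))
        ≤ (3 * (n:ℝ)^g) * (K * (Real.exp δ * Real.exp (-δ * (n:ℝ)^g))) := by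
          apply mul_le_mul hm3 _ (by positivity) (by positivity)
          exact mul_le_mul_of_nonneg_left e1 hK
      _ = (3 * K * Real.exp δ) * ((n:ℝ)^g * Real.exp (-δ * (n:ℝ)^g)) := by ring
      _ ≤ _ := mul_le_mul_of_nonneg_left e2 (by positivity)
  linarith

open Classical in
theorem main (q t : ℕ) (ht : 1 ≤ t) (α : ℝ) (hα : 0 < α) (hα' : α < 1 / (t:ℝ)^(q+3))
    (ε : ℝ) (hε : 0 < ε) :
    ∃ (C : ℝ) (n₀ : ℕ), ∀ (V : Type) [Fintype V] (A : V → V → Prop), (∀ v, ¬ A v v) →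
      n₀ ≤ Fintype.card V →
      (¬ ∃ f : Fin (q+3) × Fin t → V, Function.Injective f ∧ ∀ a b, a.1 < b.1 → A (f a) (f b)) →
      (∀ v, ((3*q+2:ℝ)/(3*q+5) + ε) * Fintype.card V ≤ ((univ.filter (A v)).card : ℝ)) →
      ∃ p : V → Fin (q+2), ((univ.filter (fun e : V × V => A e.1 e.2 ∧ p e.1 = p e.2)).card : ℝ) ≤
        C * (Fintype.card V : ℝ) ^ (2 - α) := by
  set c : ℝ := (3*q+2:ℝ)/(3*q+5) with hc
  have hc0 : 0 < c := by rw [hc]; positivity
  by_cases hcε : c + ε ≤ 1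
  swap
  · refine ⟨0, 1, ?_⟩
    intro V _ A hl hn hfree hdeg
    exfalso
    obtain ⟨v⟩ := Fintype.card_pos_iff.1 (show 0 < Fintype.card V by omega)
    have h1 := hdeg v
    have h2 : ((univ.filter (A v)).card : ℝ) ≤ Fintype.card V := by
      exact_mod_cast Finset.card_le_univ _
    have h3 : (1:ℝ) ≤ Fintype.card V := by exact_mod_cast hn
    nlinarith
  obtain ⟨z, δ, hz, hz1, hδ, hρ, hzδ⟩ := consts c ε hc0 hε hcε
  obtain ⟨C, n1, hC0, hC⟩ := asym (q+3) (by omega) ((((q+3) * t : ℕ) : ℝ) ^ 2) (1 / (t:ℝ)^(q+3)) α δ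
    (z ^ (-(2 * c + 1))) hα hα' hδ (Real.rpow_nonneg hz.le _) (sq_nonneg _)
  have hlim : Tendsto (fun n : ℕ => C * (n:ℝ)^(-α)) atTop (𝓝 0) := by
    have := ((tendsto_rpow_neg_atTop hα).comp tendsto_natCast_atTop_atTop).const_mul C
    simpa using this
  have hev : ∀ᶠ n : ℕ in atTop, C * (n:ℝ)^(-α) < 1 := hlim.eventually (Iio_mem_nhds zero_lt_one)
  obtain ⟨n2, hn2⟩ := eventually_atTop.1 hev
  refine ⟨C, max (max n1 n2) 1, ?_⟩
  intro V _ A hl hn hfree hdeg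
  have hnn1 : n1 ≤ Fintype.card V := le_trans (le_trans (le_max_left _ _) (le_max_left _ _)) hn
  have hnn2 : n2 ≤ Fintype.card V := le_trans (le_trans (le_max_right _ _) (le_max_left _ _)) hn
  have hnn : 1 ≤ Fintype.card V := le_trans (le_max_right _ _) hn
  haveI : Nonempty V := Fintype.card_pos_iff.1 (by omega)
  have hnR : (0:ℝ) < Fintype.card V := by exact_mod_cast hnn
  obtain ⟨m, hm⟩ := hC (Fintype.card V) hnn1
  have hb1 := hn2 (Fintype.card V) hnn2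
  -- density
  have hd := density A (q+3) t (by omega) ht hfree
  set d : ℝ := ((univ.filter (TT A (q+3))).card : ℝ) / (Fintype.card V : ℝ) ^ (q+3) with hdd
  have hd0 : 0 ≤ d := by positivity
  have hdle : d ≤ ((((q+3) * t : ℕ) : ℝ) ^ 2 / (Fintype.card V : ℝ)) ^ (1 / (t:ℝ)^(q+3)) := by
    have e1 : d = (d ^ (t ^ (q+3))) ^ (1 / (t:ℝ)^(q+3)) := by
      have : (1 / (t:ℝ)^(q+3)) = (((t ^ (q+3) : ℕ)) : ℝ)⁻¹ := by push_cast; rw [one_div]
      rw [this, Real.pow_rpow_inv_natCast hd0]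
      positivity
    rw [e1]
    exact Real.rpow_le_rpow (pow_nonneg hd0 _) hd (one_div_nonneg.2 (pow_nonneg (Nat.cast_nonneg _) _))
  have hbad := card_notGood A hl q m ε z δ hz hz1 hρ hzδ hdeg
  rw [← hdd] at hbad
  set b : ℝ := C * (Fintype.card V : ℝ)^(-α) with hb
  have hbad2 : ((univ.filter (fun x : Fin (m+2) → V => ¬ Good A q m x)).card : ℝ) ≤
      (Fintype.card V : ℝ) ^ (m+2) * b := by
    refine hbad.trans ?_
    apply mul_le_mul_of_nonneg_left _ (by positivity)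
    refine le_trans ?_ hm
    apply add_le_add _ le_rfl
    exact mul_le_mul_of_nonneg_left hdle (by positivity)
  obtain ⟨s, hs⟩ := exists_sample A q m b hbad2
  have hgood : ∃ u0 v0, Good A q m (Fin.cons u0 (Fin.cons v0 s : Fin (m+1) → V)) := by
    by_contra hcon
    push Not at hcon
    have : (univ.filter (fun p : V × V => ¬ Good A q m
      (Fin.cons p.1 (Fin.cons p.2 s : Fin (m+1) → V)))) = univ := by
      apply Finset.filter_true_of_mem
      intro p _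
      exact hcon p.1 p.2
    rw [this, Finset.card_univ, Fintype.card_prod] at hs
    push_cast at hs
    have h4 : (Fintype.card V : ℝ) ^ 2 * b < (Fintype.card V : ℝ) ^ 2 * 1 :=
      mul_lt_mul_of_pos_left hb1 (by positivity)
    nlinarith
  obtain ⟨p, hp⟩ := partition_of_sample A hl q m s hgood
  refine ⟨p, ?_⟩
  have h5 : ((univ.filter (fun e : V × V => A e.1 e.2 ∧ p e.1 = p e.2)).card : ℝ) ≤
      ((univ.filter (fun p : V × V => ¬ Good A q m
      (Fin.cons p.1 (Fin.cons p.2 s : Fin (m+1) → V)))).card : ℝ) := by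
    have : (univ.filter (fun e : V × V => A e.1 e.2 ∧ p e.1 = p e.2)).card ≤
      (univ.filter (fun p : V × V => ¬ Good A q m
      (Fin.cons p.1 (Fin.cons p.2 s : Fin (m+1) → V)))).card := by
      apply Finset.card_le_card
      intro e he
      simp only [Finset.mem_filter, Finset.mem_univ, true_and] at he ⊢
      intro hg
      exact hp e.1 e.2 he.1 hg he.2
    exact_mod_cast this
  refine h5.trans (hs.trans (le_of_eq ?_))
  rw [hb, Real.rpow_sub hnR, Real.rpow_neg hnR.le]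
  have : (Fintype.card V : ℝ) ^ (2:ℝ) = (Fintype.card V : ℝ) ^ 2 := by norm_cast
  rw [this]
  ring

end Q146.TB
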