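import Pool.Agent.Q146.TrBlow.Sample

open Finset

namespace Q146.TB

section
variable {V : Type*} [Fintype V]

def adj (A : V → V → Prop) (u v : V) : Prop := A u v ∨ A v u

omit [Fintype V] in
lemma adj_symm (A : V → V → Prop) (u v : V) (h : adj A u v) : adj A v u := Or.symm h

omit [Fintype V] in
open Classical in
lemma good_facts (A : V → V → Prop) (hl : ∀ v, ¬ A v v) (q m : ℕ) (s : Fin m → V) (u v : V)
    (hg : Good A q m (Fin.cons u (Fin.cons v s : Fin (m+1) → V))) :
    ∃ χ : Fin (m+2) → Fin (q+2),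
      (∀ i j, adj A ((Fin.cons u (Fin.cons v s : Fin (m+1) → V) : Fin (m+2) → V) i)
        ((Fin.cons u (Fin.cons v s : Fin (m+1) → V) : Fin (m+2) → V) j) → χ i ≠ χ j) ∧
      (∀ i j, χ i = χ j → Lnk q s (adj A) ((Fin.cons u (Fin.cons v s : Fin (m+1) → V) : Fin (m+2) → V) i)
        ((Fin.cons u (Fin.cons v s : Fin (m+1) → V) : Fin (m+2) → V) j)) ∧
      (∀ i j, Lnk q s (adj A) ((Fin.cons u (Fin.cons v s : Fin (m+1) → V) : Fin (m+2) → V) i)
        ((Fin.cons u (Fin.cons v s : Fin (m+1) → V) : Fin (m+2) → V) j) → χ i = χ j) ∧ 0 < m := by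
  set x : Fin (m+2) → V := Fin.cons u (Fin.cons v s : Fin (m+1) → V) with hx
  have hxs : ∀ j : Fin m, x j.succ.succ = s j := by intro j; rw [hx]; simp
  obtain ⟨hT, hd⟩ := hg
  have hm : 0 < m := by
    rcases Nat.eq_zero_or_pos m with h | h
    · subst h
      have := hd 0
      simp [cnt] at this
    · exact h
  obtain ⟨χ, hχ⟩ := aes (fun i j : Fin (m+2) => A (x i) (x j)) (fun i => hl _) q hT (by
    intro i
    rw [Fintype.card_fin]
    refine (hd i).trans_le (Nat.mul_le_mul_left _ ?_)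
    rw [cnt]
    apply Finset.card_le_card_of_injOn (fun j => j.succ.succ)
    · intro j hj
      simpa using hj
    · intro a _ b _ hab
      simpa using hab)
  have hχ' : ∀ i j, adj A (x i) (x j) → χ i ≠ χ j := by
    intro i j h
    rcases h with h | h
    · exact hχ i j h
    · exact (hχ j i h).symm
  have hdeg : ∀ i : Fin (m+2), (3*q+2) * Fintype.card (Fin m) <
      (3*q+5) * (univ.filter (fun j : Fin m => adj A (x i) (x j.succ.succ))).card := by
    intro i
    rw [Fintype.card_fin]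
    calc (3*q+2) * m ≤ (3*q+2) * (m+2) := Nat.mul_le_mul_left _ (by omega)
      _ < (3*q+5) * cnt A m x (x i) := hd i
      _ ≤ _ := by
        apply Nat.mul_le_mul_left
        rw [cnt]
        apply Finset.card_le_card
        intro j hj
        simp only [Finset.mem_filter, Finset.mem_univ, true_and] at hj ⊢
        exact Or.inl hj
  refine ⟨χ, hχ', ?_, ?_, hm⟩
  · intro i j hij
    obtain ⟨g, h1, h2⟩ := lnk_of_color q (fun j : Fin m => j.succ.succ)
      (fun i j => adj A (x i) (x j)) (fun _ _ h => adj_symm A _ _ h) χ hχ' hdeg i j hij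
    refine ⟨g, ?_, ?_⟩
    · intro a; rw [← hxs]; exact h1 a
    · intro a b hab; rw [← hxs, ← hxs]; exact h2 a b hab
  · intro i j h
    obtain ⟨g, h1, h2⟩ := h
    apply color_of_lnk q (fun j : Fin m => j.succ.succ) (fun i j => adj A (x i) (x j)) χ hχ' i j
    refine ⟨g, ?_, ?_⟩
    · intro a; simp only [hxs]; exact h1 a
    · intro a b hab; simp only [hxs]; exact h2 a b hab

omit [Fintype V] in
theorem partition_of_sample (A : V → V → Prop) (hl : ∀ v, ¬ A v v) (q m : ℕ) (s : Fin m → V)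
    (h0 : ∃ u0 v0, Good A q m (Fin.cons u0 (Fin.cons v0 s : Fin (m+1) → V))) :
    ∃ p : V → Fin (q+2), ∀ u v, A u v → Good A q m (Fin.cons u (Fin.cons v s : Fin (m+1) → V)) →
      p u ≠ p v := by
  classical
  obtain ⟨u0, v0, hg0⟩ := h0
  obtain ⟨χ0, -, hL0, -, hm⟩ := good_facts A hl q m s u0 v0 hg0
  obtain ⟨g, h1, h2⟩ := hL0 (⟨0, hm⟩ : Fin m).succ.succ (⟨0, hm⟩ : Fin m).succ.succ rfl
  have h1' : ∀ a, adj A (s ⟨0, hm⟩) (s (g a)) := by
    intro a
    have := (h1 a).1
    rwa [Fin.cons_succ, Fin.cons_succ] at this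
  set a : Fin (q+2) → Fin m := Fin.cons ⟨0, hm⟩ g with ha
  have hclq : ∀ k k', k ≠ k' → adj A (s (a k)) (s (a k')) := by
    intro k k'
    refine Fin.cases ?_ (fun k => ?_) k
    · refine Fin.cases ?_ (fun k' => ?_) k'
      · intro h; exact absurd rfl h
      · intro _
        rw [ha]
        simpa using h1' k'
    · refine Fin.cases ?_ (fun k' => ?_) k'
      · intro _
        rw [ha]
        simpa using adj_symm A _ _ (h1' k)
      · intro h
        rw [ha]
        simpa using h2 k k' (fun h' => h (by rw [h']))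
  refine ⟨fun v => if h : ∃ k, Lnk q s (adj A) v (s (a k)) then h.choose else 0, ?_⟩
  intro u v huv hg
  obtain ⟨χ, hχ, hL1, hL2, -⟩ := good_facts A hl q m s u v hg
  set x : Fin (m+2) → V := Fin.cons u (Fin.cons v s : Fin (m+1) → V) with hx
  have hx0 : x 0 = u := by rw [hx]; simp
  have hx1 : x (Fin.succ 0) = v := by rw [hx]; simp
  have hxs : ∀ j : Fin m, x j.succ.succ = s j := by intro j; rw [hx]; simp
  have hinj : Function.Injective (fun k => χ (a k).succ.succ) := by
    intro k k' hk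
    by_contra hne
    refine hχ _ _ ?_ hk
    rw [hxs, hxs]
    exact hclq k k' hne
  have hsurj := Finite.surjective_of_injective hinj
  have hp : ∀ i : Fin (m+2), ∃ k, Lnk q s (adj A) (x i) (s (a k)) := by
    intro i
    obtain ⟨k, hk⟩ := hsurj (χ i)
    have := hL1 i (a k).succ.succ hk.symm
    rw [hxs] at this
    exact ⟨k, this⟩
  have hu : ∃ k, Lnk q s (adj A) u (s (a k)) := by rw [← hx0]; exact hp 0
  have hv : ∃ k, Lnk q s (adj A) v (s (a k)) := by rw [← hx1]; exact hp _
  simp only [dif_pos hu, dif_pos hv]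
  intro heq
  have e1 := hu.choose_spec
  have e2 := hv.choose_spec
  rw [← heq] at e2
  generalize hu.choose = k1 at e1 e2
  have e1' := hL2 0 (a k1).succ.succ (by rw [hx0, hxs]; exact e1)
  have e2' := hL2 (Fin.succ 0) (a k1).succ.succ (by rw [hx1, hxs]; exact e2)
  apply hχ 0 (Fin.succ 0) ?_ (e1'.trans e2'.symm)
  rw [hx0, hx1]
  exact Or.inl huv

end

end Q146.TB
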