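import Pool.Agent.Q146.TrBlow.Link

open Finset

namespace Q146.TB

open Classical in
/-- restriction of a random function to an injective index tuple -/
lemma card_restrict {ι κ V : Type*} [Fintype ι] [Fintype κ] [DecidableEq ι] [DecidableEq κ] [Fintype V]
    (f : ι → κ) (hf : Function.Injective f) (P : (ι → V) → Prop) :
    ((univ.filter (fun x : κ → V => P (fun i => x (f i)))).card : ℝ) * (Fintype.card V : ℝ) ^ (Fintype.card ι)
      ≤ ((univ.filter P).card : ℝ) * (Fintype.card V : ℝ) ^ (Fintype.card κ) := by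
  have h1 : (univ.filter (fun x : κ → V => P (fun i => x (f i)))).card ≤
      ((univ.filter P) ×ˢ (univ : Finset ({k // k ∉ Set.range f} → V))).card := by
    apply Finset.card_le_card_of_injOn (fun x => (fun i => x (f i), fun k => x k.1))
    · intro x hx
      simp only [Finset.coe_filter, Finset.mem_univ, true_and, Set.mem_ofPred_eq] at hx
      simp [hx]
    · intro x _ y _ h
      simp only [Prod.mk.injEq] at h
      funext k
      by_cases hk : k ∈ Set.range f
      · obtain ⟨i, rfl⟩ := hk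
        exact congrFun h.1 i
      · exact congrFun h.2 ⟨k, hk⟩
  rw [Finset.card_product, Finset.card_univ, Fintype.card_fun, Fintype.card_subtype_compl] at h1
  have h2 : Fintype.card {k // k ∈ Set.range f} = Fintype.card ι := by
    rw [← Set.card_range_of_injective hf]
  rw [h2] at h1
  have h3 : Fintype.card ι ≤ Fintype.card κ := Fintype.card_le_of_injective f hf
  have h4 : (Fintype.card V : ℝ) ^ (Fintype.card κ) =
      (Fintype.card V : ℝ) ^ (Fintype.card κ - Fintype.card ι) * (Fintype.card V : ℝ) ^ (Fintype.card ι) := by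
    rw [← pow_add]; congr 1; omega
  rw [h4, ← mul_assoc]
  apply mul_le_mul_of_nonneg_right _ (by positivity)
  exact_mod_cast h1

section
variable {V : Type*} [Fintype V]

/-- count of sampled outneighbours -/
noncomputable def cnt (A : V → V → Prop) (m : ℕ) (x : Fin (m+2) → V) (a : V) : ℕ :=
  open Classical in (univ.filter (fun j : Fin m => A a (x j.succ.succ))).card

/-- good samples -/
def Good (A : V → V → Prop) (q m : ℕ) (x : Fin (m+2) → V) : Prop :=
  (¬ ∃ f : Fin (q+3) → Fin (m+2), TT A (q+3) (fun i => x (f i))) ∧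
    ∀ i, (3*q+2) * (m+2) < (3*q+5) * cnt A m x (x i)

open Classical in
lemma tail_fixed (A : V → V → Prop) (m : ℕ) (z ρ : ℝ) (hz : 0 < z) (hz1 : z < 1)
    (i : Fin (m+2)) (a : V) [Nonempty V]
    (hdeg : (Fintype.card V : ℝ) - (1 - z) * ((univ.filter (A a)).card : ℝ) ≤
      ρ * Fintype.card V) (C : ℝ) :
    ((univ.filter (fun x : Fin (m+2) → V => x i = a ∧ (cnt A m x a : ℝ) ≤ C)).card : ℝ) ≤
      z ^ (-C) * ((Fintype.card V : ℝ) ^ (m+1) * ρ ^ m / z) := by
  set n : ℝ := (Fintype.card V : ℝ) with hn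
  have hn0 : 0 < n := by rw [hn]; exact_mod_cast Fintype.card_pos
  set w : V → ℝ := fun v => if A a v then z else 1 with hw
  have hw0 : ∀ v, 0 < w v := fun v => by rw [hw]; simp only; split_ifs <;> linarith
  have hw1 : ∀ v, w v ≤ 1 := fun v => by rw [hw]; simp only; split_ifs <;> linarith
  set h : Fin (m+2) → V → ℝ := fun k v => if 2 ≤ k.val then w v else 1 with hh
  have hh0 : ∀ k v, 0 < h k v := fun k v => by
    rw [hh]; simp only; split_ifs
    · exact hw0 v
    · norm_num
  have hh1 : ∀ k v, h k v ≤ 1 := fun k v => by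
    rw [hh]; simp only; split_ifs
    · exact hw1 v
    · norm_num
  set S := ∑ v, w v with hS
  have hSeq : S = n - (1 - z) * ((univ.filter (A a)).card : ℝ) := by
    have : ∀ v, w v = 1 - (1 - z) * (if A a v then 1 else 0) := by
      intro v; rw [hw]; simp only; split_ifs <;> ring
    rw [hS, Finset.sum_congr rfl (fun v _ => this v), Finset.sum_sub_distrib, ← Finset.mul_sum,
      Finset.sum_boole]
    simp [hn]
  have hSle : S ≤ ρ * n := by rw [hSeq]; exact hdeg
  have hSn : S ≤ n := by
    rw [hS, hn]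
    calc ∑ v, w v ≤ ∑ v : V, (1:ℝ) := Finset.sum_le_sum (fun v _ => hw1 v)
      _ = _ := by simp
  have hSz : z * n ≤ S := by
    rw [hS, hn]
    calc z * (Fintype.card V : ℝ) = ∑ v : V, z := by simp [mul_comm]
      _ ≤ _ := Finset.sum_le_sum (fun v _ => by rw [hw]; simp only; split_ifs <;> linarith)
  have hS0 : 0 < S := lt_of_lt_of_le (by positivity) hSz
  -- pointwise
  have hpt : ∀ x : Fin (m+2) → V, (if x i = a ∧ (cnt A m x a : ℝ) ≤ C then (1:ℝ) else 0) ≤
      z ^ (-C) * ∏ k, ((if k = i then (if x k = a then (1:ℝ) else 0) else 1) * h k (x k)) := by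
    intro x
    split_ifs with hx
    · have e1 : ∏ k, ((if k = i then (if x k = a then (1:ℝ) else 0) else 1) * h k (x k)) =
          ∏ k, h k (x k) := by
        apply Finset.prod_congr rfl
        intro k _
        by_cases hk : k = i
        · subst hk; simp [hx.1]
        · simp [hk]
      have e2 : ∏ k, h k (x k) = z ^ (cnt A m x a : ℝ) := by
        rw [Fin.prod_univ_succ, Fin.prod_univ_succ]
        have e3 : h 0 (x 0) = 1 := by rw [hh]; simp
        have e4 : h (Fin.succ 0) (x (Fin.succ 0)) = 1 := by rw [hh]; simp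
        rw [e3, e4, one_mul, one_mul]
        have e5 : ∀ j : Fin m, h j.succ.succ (x j.succ.succ) = if A a (x j.succ.succ) then z else 1 := by
          intro j; rw [hh]; simp [hw]
        rw [Finset.prod_congr rfl (fun j _ => e5 j), Finset.prod_ite]
        simp [cnt]
      rw [e1, e2, ← Real.rpow_add hz]
      apply Real.one_le_rpow_of_pos_of_le_one_of_nonpos hz hz1.le
      linarith [hx.2]
    · apply mul_nonneg (Real.rpow_nonneg hz.le _)
      apply Finset.prod_nonneg
      intro k _
      apply mul_nonneg _ (hh0 _ _).le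
      split_ifs <;> norm_num
  have hsum : ((univ.filter (fun x : Fin (m+2) → V => x i = a ∧ (cnt A m x a : ℝ) ≤ C)).card : ℝ) ≤
      z ^ (-C) * ∏ k, ∑ v, ((if k = i then (if v = a then (1:ℝ) else 0) else 1) * h k v) := by
    rw [Finset.prod_univ_sum, Fintype.piFinset_univ, ← Finset.sum_boole, Finset.mul_sum]
    exact Finset.sum_le_sum (fun x _ => hpt x)
  refine hsum.trans ?_
  apply mul_le_mul_of_nonneg_left _ (Real.rpow_nonneg hz.le _)
  set H : Fin (m+2) → ℝ := fun k => ∑ v, h k v with hH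
  have hHS : ∀ k, S ≤ H k := by
    intro k
    rw [hH, hh]
    by_cases hk : 2 ≤ k.val
    · simp [hk, hS]
    · simp [hk]; exact hSn
  have hGi : (∑ v, ((if v = a then (1:ℝ) else 0) * h i v)) ≤ 1 := by
    simp only [ite_mul, one_mul, zero_mul, Finset.sum_ite_eq', Finset.mem_univ, if_true]
    exact hh1 _ _
  have hprod : ∏ k, ∑ v, ((if k = i then (if v = a then (1:ℝ) else 0) else 1) * h k v) ≤
      (∏ k, H k) / H i := by
    rw [← Finset.mul_prod_erase univ _ (Finset.mem_univ i),
      ← Finset.mul_prod_erase univ H (Finset.mem_univ i), mul_div_assoc,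
      mul_comm (H i), div_mul_cancel₀ _ (lt_of_lt_of_le hS0 (hHS i)).ne']
    have e1 : ∏ k ∈ univ.erase i, ∑ v, ((if k = i then (if v = a then (1:ℝ) else 0) else 1) * h k v) =
        ∏ k ∈ univ.erase i, H k := by
      apply Finset.prod_congr rfl
      intro k hk
      rw [Finset.mem_erase] at hk
      simp [hk.1, hH]
    rw [e1]
    have e2 : 0 ≤ ∏ k ∈ univ.erase i, H k := Finset.prod_nonneg
      (fun k _ => (lt_of_lt_of_le hS0 (hHS k)).le)
    simp only [if_true]
    calc (∑ v, (if v = a then (1:ℝ) else 0) * h i v) * ∏ k ∈ univ.erase i, H k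
        ≤ 1 * ∏ k ∈ univ.erase i, H k := mul_le_mul_of_nonneg_right hGi e2
      _ = _ := one_mul _
  refine hprod.trans ?_
  have hHall : ∏ k, H k = n * (n * S ^ m) := by
    rw [Fin.prod_univ_succ, Fin.prod_univ_succ]
    have e3 : H 0 = n := by rw [hH, hh]; simp [hn]
    have e4 : H (Fin.succ 0) = n := by rw [hH, hh]; simp [hn]
    have e5 : ∀ j : Fin m, H j.succ.succ = S := by
      intro j; rw [hH, hh]; simp [hS]
    rw [e3, e4, Finset.prod_congr rfl (fun j _ => e5 j)]
    simp
  rw [hHall]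
  calc n * (n * S ^ m) / H i ≤ n * (n * S ^ m) / (z * n) := by
        apply div_le_div_of_nonneg_left (by positivity) (by positivity)
        exact hSz.trans (hHS i)
    _ ≤ n * (n * (ρ * n) ^ m) / (z * n) := by
        apply div_le_div_of_nonneg_right _ (by positivity)
        gcongr
    _ = n ^ (m+1) * ρ ^ m / z := by
        rw [mul_pow, pow_succ]
        field_simp

lemma consts (c ε : ℝ) (hc : 0 < c) (hε : 0 < ε) (hcε : c + ε ≤ 1) :
    ∃ z δ : ℝ, 0 < z ∧ z < 1 ∧ 0 < δ ∧ 0 < 1 - (1 - z) * (c + ε) ∧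
      (1 - (1 - z) * (c + ε)) * z ^ (-c) ≤ Real.exp (-δ) := by
  set z := (c + ε/2) / (c + ε) with hz
  have h1 : 0 < z := by rw [hz]; positivity
  have h2 : z < 1 := by rw [hz, div_lt_one (by linarith)]; linarith
  have h3 : c / z < c + ε := by
    rw [div_lt_iff₀ h1, hz, mul_div_cancel₀ _ (by linarith : c + ε ≠ 0)]
    linarith
  refine ⟨z, (1 - z) * (c + ε - c / z), h1, h2, mul_pos (by linarith) (by linarith), ?_, ?_⟩
  · nlinarith
  · have h4 : 1 - (1 - z) * (c + ε) ≤ Real.exp (-((1 - z) * (c + ε))) := by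
      have := Real.add_one_le_exp (-((1 - z) * (c + ε)))
      linarith
    have h5 : z ^ (-c) ≤ Real.exp (c * (1 / z - 1)) := by
      rw [Real.rpow_def_of_pos h1]
      apply Real.exp_le_exp.2
      have h6 := Real.log_le_sub_one_of_pos (show 0 < 1 / z by positivity)
      rw [one_div, Real.log_inv] at h6
      rw [one_div]
      nlinarith
    have h7 : Real.exp (-((1 - z) * (c + ε - c / z))) =
        Real.exp (-((1 - z) * (c + ε))) * Real.exp (c * (1 / z - 1)) := by
      rw [← Real.exp_add]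
      congr 1
      field_simp
      ring
    rw [h7]
    apply mul_le_mul h4 h5 (Real.rpow_nonneg h1.le _) (Real.exp_pos _).le

open Classical in
theorem card_notGood (A : V → V → Prop) (hl : ∀ v, ¬ A v v) [Nonempty V] (q m : ℕ)
    (ε z δ : ℝ) (hz : 0 < z) (hz1 : z < 1)
    (hρ : 0 < 1 - (1 - z) * ((3*q+2:ℝ)/(3*q+5) + ε))
    (hδ : (1 - (1 - z) * ((3*q+2:ℝ)/(3*q+5) + ε)) * z ^ (-((3*q+2:ℝ)/(3*q+5))) ≤ Real.exp (-δ))
    (hdeg : ∀ v, ((3*q+2:ℝ)/(3*q+5) + ε) * Fintype.card V ≤ ((univ.filter (A v)).card : ℝ)) :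
    ((univ.filter (fun x : Fin (m+2) → V => ¬ Good A q m x)).card : ℝ) ≤
      (Fintype.card V : ℝ) ^ (m+2) * (((m+2:ℕ):ℝ)^(q+3) *
        (((univ.filter (TT A (q+3))).card : ℝ) / (Fintype.card V : ℝ) ^ (q+3)) +
        ((m+2:ℕ):ℝ) * (z ^ (-(2 * ((3*q+2:ℝ)/(3*q+5)) + 1)) * Real.exp (-δ * m))) := by
  set c : ℝ := (3*q+2:ℝ)/(3*q+5) with hc
  set ρ : ℝ := 1 - (1 - z) * (c + ε) with hρd
  set n : ℝ := (Fintype.card V : ℝ) with hn
  have hn0 : 0 < n := by rw [hn]; exact_mod_cast Fintype.card_pos
  set C : ℝ := c * (m+2) with hC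
  have hsub : (univ.filter (fun x : Fin (m+2) → V => ¬ Good A q m x)) ⊆
      ((univ : Finset (Fin (q+3) → Fin (m+2))).biUnion
        (fun f => univ.filter (fun x : Fin (m+2) → V => TT A (q+3) (fun i => x (f i))))) ∪
      ((univ : Finset (Fin (m+2) × V)).biUnion
        (fun p => univ.filter (fun x : Fin (m+2) → V => x p.1 = p.2 ∧ (cnt A m x p.2 : ℝ) ≤ C))) := by
    intro x hx
    simp only [Finset.mem_filter, Finset.mem_univ, true_and] at hx
    simp only [Finset.mem_union, Finset.mem_biUnion, Finset.mem_filter, Finset.mem_univ, true_and]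
    by_cases h : ∃ f : Fin (q+3) → Fin (m+2), TT A (q+3) (fun i => x (f i))
    · exact Or.inl h
    · right
      have : ¬ ∀ i, (3*q+2) * (m+2) < (3*q+5) * cnt A m x (x i) := fun h' => hx ⟨h, h'⟩
      push Not at this
      obtain ⟨i, hi⟩ := this
      refine ⟨(i, x i), rfl, ?_⟩
      rw [hC, hc, div_mul_eq_mul_div, le_div_iff₀ (by positivity), mul_comm]
      exact_mod_cast hi
  have h1 := (Finset.card_le_card hsub).trans (Finset.card_union_le _ _)
  have hf : ∀ f : Fin (q+3) → Fin (m+2),
      ((univ.filter (fun x : Fin (m+2) → V => TT A (q+3) (fun i => x (f i)))).card : ℝ) ≤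
        n ^ (m+2) * (((univ.filter (TT A (q+3))).card : ℝ) / n ^ (q+3)) := by
    intro f
    by_cases hinj : Function.Injective f
    · have := card_restrict (V := V) f hinj (TT A (q+3))
      simp only [Fintype.card_fin] at this
      rw [← mul_div_assoc, le_div_iff₀ (by positivity)]
      rw [mul_comm (n ^ (m+2))]
      exact this
    · have hemp : (univ.filter (fun x : Fin (m+2) → V => TT A (q+3) (fun i => x (f i)))) = ∅ := by
        rw [Finset.filter_eq_empty_iff]
        intro x _ hTT
        apply hinj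
        intro i j hij
        by_contra hne
        rcases lt_or_gt_of_ne hne with h | h
        · have := hTT i j h
          simp only [hij] at this
          exact hl _ this
        · have := hTT j i h
          simp only [hij] at this
          exact hl _ this
      rw [hemp]
      simp only [Finset.card_empty, Nat.cast_zero]
      positivity
  have h2 : ((((univ : Finset (Fin (q+3) → Fin (m+2))).biUnion
        (fun f => univ.filter (fun x : Fin (m+2) → V => TT A (q+3) (fun i => x (f i))))).card : ℕ) : ℝ) ≤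
        ((m+2:ℕ):ℝ)^(q+3) * (n ^ (m+2) * (((univ.filter (TT A (q+3))).card : ℝ) / n ^ (q+3))) := by
    have := Finset.card_biUnion_le (s := (univ : Finset (Fin (q+3) → Fin (m+2))))
      (t := fun f => univ.filter (fun x : Fin (m+2) → V => TT A (q+3) (fun i => x (f i))))
    have h3 : ((∑ f : Fin (q+3) → Fin (m+2),
        (univ.filter (fun x : Fin (m+2) → V => TT A (q+3) (fun i => x (f i)))).card : ℕ) : ℝ) ≤
        ∑ f : Fin (q+3) → Fin (m+2), (n ^ (m+2) * (((univ.filter (TT A (q+3))).card : ℝ) / n ^ (q+3))) := by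
      push_cast
      exact Finset.sum_le_sum (fun f _ => hf f)
    rw [Finset.sum_const, nsmul_eq_mul, Finset.card_univ, Fintype.card_fun, Fintype.card_fin,
      Fintype.card_fin] at h3
    push_cast at h3 ⊢
    exact le_trans (by exact_mod_cast this) h3
  have h4 : ((((univ : Finset (Fin (m+2) × V)).biUnion
        (fun p => univ.filter (fun x : Fin (m+2) → V => x p.1 = p.2 ∧ (cnt A m x p.2 : ℝ) ≤ C))).card : ℕ) : ℝ) ≤
        (((m+2:ℕ):ℝ) * n) * (z ^ (-C) * (n ^ (m+1) * ρ ^ m / z)) := by
    have := Finset.card_biUnion_le (s := (univ : Finset (Fin (m+2) × V)))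
      (t := fun p => univ.filter (fun x : Fin (m+2) → V => x p.1 = p.2 ∧ (cnt A m x p.2 : ℝ) ≤ C))
    have h3 : ((∑ p : Fin (m+2) × V,
        (univ.filter (fun x : Fin (m+2) → V => x p.1 = p.2 ∧ (cnt A m x p.2 : ℝ) ≤ C)).card : ℕ) : ℝ) ≤
        ∑ p : Fin (m+2) × V, (z ^ (-C) * (n ^ (m+1) * ρ ^ m / z)) := by
      push_cast
      apply Finset.sum_le_sum
      intro p _
      apply tail_fixed A m z ρ hz hz1 p.1 p.2
      have := hdeg p.2
      rw [hρd]
      nlinarith
    rw [Finset.sum_const, nsmul_eq_mul, Finset.card_univ, Fintype.card_prod, Fintype.card_fin] at h3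
    push_cast at h3 ⊢
    exact le_trans (by exact_mod_cast this) h3
  have h5 : z ^ (-C) * (n ^ (m+1) * ρ ^ m / z) ≤
      n ^ (m+1) * (z ^ (-(2 * c + 1)) * Real.exp (-δ * m)) := by
    have e1 : z ^ (-C) * ρ ^ m / z = z ^ (-(2*c+1)) * (ρ * z ^ (-c)) ^ m := by
      rw [mul_pow, ← Real.rpow_natCast (z ^ (-c)) m, ← Real.rpow_mul hz.le]
      have : z ^ (-C) = z ^ (-(2*c+1)) * z ^ (-c * m) * z := by
        conv_rhs => rw [← Real.rpow_one z]
        rw [← Real.rpow_mul hz.le, ← Real.rpow_mul hz.le, ← Real.rpow_add hz, ← Real.rpow_add hz]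
        congr 1
        rw [hC]; ring
      rw [this]
      field_simp
    have e2 : (ρ * z ^ (-c)) ^ m ≤ Real.exp (-δ * m) := by
      have : Real.exp (-δ * m) = (Real.exp (-δ)) ^ m := by
        rw [← Real.exp_nat_mul]; congr 1; ring
      rw [this]
      apply pow_le_pow_left₀ _ hδ
      exact mul_nonneg hρ.le (Real.rpow_nonneg hz.le _)
    calc z ^ (-C) * (n ^ (m+1) * ρ ^ m / z) = n ^ (m+1) * (z ^ (-C) * ρ ^ m / z) := by ring
      _ = n ^ (m+1) * (z ^ (-(2*c+1)) * (ρ * z ^ (-c)) ^ m) := by rw [e1]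
      _ ≤ _ := by
        apply mul_le_mul_of_nonneg_left _ (by positivity)
        exact mul_le_mul_of_nonneg_left e2 (Real.rpow_nonneg hz.le _)
  have h6 : (((m+2:ℕ):ℝ) * n) * (z ^ (-C) * (n ^ (m+1) * ρ ^ m / z)) ≤
      (((m+2:ℕ):ℝ) * n) * (n ^ (m+1) * (z ^ (-(2 * c + 1)) * Real.exp (-δ * m))) :=
    mul_le_mul_of_nonneg_left h5 (by positivity)
  have h7 : ((univ.filter (fun x : Fin (m+2) → V => ¬ Good A q m x)).card : ℝ) ≤ _ :=
    le_trans (by exact_mod_cast h1) (add_le_add h2 (h4.trans h6))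
  refine h7.trans (le_of_eq ?_)
  have : n ^ (m+2) = n * n ^ (m+1) := by rw [pow_succ n (m+1)]; ring
  rw [this]
  ring

open Classical in
/-- averaging: some sample of size m has few bad completions -/
theorem exists_sample (A : V → V → Prop) [Nonempty V] (q m : ℕ) (b : ℝ)
    (hb : ((univ.filter (fun x : Fin (m+2) → V => ¬ Good A q m x)).card : ℝ) ≤
      (Fintype.card V : ℝ) ^ (m+2) * b) :
    ∃ s : Fin m → V, ((univ.filter (fun p : V × V => ¬ Good A q m
      (Fin.cons p.1 (Fin.cons p.2 s : Fin (m+1) → V)))).card : ℝ) ≤ (Fintype.card V : ℝ) ^ 2 * b := by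
  have hn0 : (0:ℝ) < Fintype.card V := by exact_mod_cast Fintype.card_pos
  by_contra hcon
  push Not at hcon
  have h1 : ∑ s : Fin m → V, ((univ.filter (fun p : V × V => ¬ Good A q m
      (Fin.cons p.1 (Fin.cons p.2 s : Fin (m+1) → V)))).card : ℝ) =
      ((univ.filter (fun x : Fin (m+2) → V => ¬ Good A q m x)).card : ℝ) := by
    rw [← Finset.sum_boole (fun x : Fin (m+2) → V => ¬ Good A q m x) (univ : Finset (Fin (m+2) → V)),
      sum_cons]
    have : ∀ u : V, (∑ y : Fin (m+1) → V, (if ¬ Good A q m (Fin.cons u y) then (1:ℝ) else 0)) =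
        ∑ v : V, ∑ s : Fin m → V, (if ¬ Good A q m (Fin.cons u (Fin.cons v s : Fin (m+1) → V))
          then (1:ℝ) else 0) := fun u => sum_cons _
    rw [Finset.sum_congr rfl (fun u _ => this u), ← Fintype.sum_prod_type'
      (f := fun u v => ∑ s : Fin m → V, (if ¬ Good A q m (Fin.cons u (Fin.cons v s : Fin (m+1) → V))
          then (1:ℝ) else 0)), Finset.sum_comm]
    apply Finset.sum_congr rfl
    intro s _
    rw [Finset.sum_boole]
  have h2 : ∑ s : Fin m → V, (Fintype.card V : ℝ) ^ 2 * b < ∑ s : Fin m → V,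
      ((univ.filter (fun p : V × V => ¬ Good A q m
      (Fin.cons p.1 (Fin.cons p.2 s : Fin (m+1) → V)))).card : ℝ) :=
    Finset.sum_lt_sum_of_nonempty Finset.univ_nonempty (fun s _ => hcon s)
  rw [h1, Finset.sum_const, Finset.card_univ, Fintype.card_fun, Fintype.card_fin, nsmul_eq_mul] at h2
  push_cast at h2
  have : (Fintype.card V : ℝ) ^ m * ((Fintype.card V : ℝ) ^ 2 * b) =
      (Fintype.card V : ℝ) ^ (m+2) * b := by ring
  linarith

end

end Q146.TB
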